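import Pool.Agent.Cec.Final
import Pool.Agent.SC24.Fin2

/-!
MP_cec948_nt: the sums `S_p` (argument `-1/3`) and `T_p` (argument `1/81`) modulo `p^2` for every
prime `p`, and the exact set of primes for which the posed assertion holds.
-/

namespace Pool.Agent.Results.MP_cec948_nt.CorrectedLaw

open Finset

/-- The generalised binomial coefficient `a (a - 1) ... (a - k + 1) / k!`. -/
def gbinom (a : ℚ) (k : ℕ) : ℚ := (∏ i ∈ range k, (a - i)) / (Nat.factorial k : ℚ)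

/-- The sum `S_p` of the problem. -/
def S (p : ℕ) : ℚ := ∑ k ∈ range p, gbinom (-1 / 4) k * gbinom (-1 / 2) k / (-3) ^ k

/-- The sum `T_p` of the problem. -/
def T (p : ℕ) : ℚ := ∑ k ∈ range p, gbinom (-1 / 4) k * gbinom (-1 / 2) k / 81 ^ k

/-- The congruence `a ≡ b (mod p^m)` for rational numbers: `(a - b) / p^m` is `p`-integral, that
is, `p` does not divide its reduced denominator. -/
def Cong (p m : ℕ) (a b : ℚ) : Prop := ¬ p ∣ ((a - b) / (p : ℚ) ^ m).den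

/-- The assertion of Q1, parts (a) and (b), for the prime `p`. -/
def Assertion (p : ℕ) : Prop :=
  (p % 4 = 1 → ∃ x : ℤ, Odd x ∧ (∃ y : ℤ, (p : ℤ) = x ^ 2 + y ^ 2) ∧
    Cong p 2 (S p) ((-1) ^ ((p - 1) / 4) * T p) ∧
    Cong p 2 ((-1) ^ ((p - 1) / 4) * T p) (2 * x - p / (2 * x))) ∧
  (p % 4 = 3 → Cong p 1 (S p) (T p) ∧ Cong p 1 (T p) 0)

/-- The Legendre symbol `(p/3)` for a prime `p > 3`. -/
def chi3 (p : ℕ) : ℚ := if p % 3 = 1 then 1 else -1

open SC24 Cec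

lemma gbinom_eq (a : ℚ) (k : ℕ) : gbinom (-a) k = (-1) ^ k * poch a k / (k.factorial : ℚ) := by
  unfold gbinom poch
  congr 1
  rw [show ((-1 : ℚ)) ^ k = ∏ _i ∈ range k, (-1 : ℚ) by simp, ← Finset.prod_mul_distrib]
  apply Finset.prod_congr rfl
  intro i _; ring

lemma term_eq (a b z : ℚ) (k : ℕ) : gbinom (-a) k * gbinom (-b) k / z ^ k = tz a b 1 (1 / z) k := by
  rw [gbinom_eq, gbinom_eq]
  unfold tz
  rw [poch_one']
  have h1 : ((-1 : ℚ) ^ k) * (-1) ^ k = 1 := by rw [← mul_pow]; simp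
  have h3 : (k.factorial : ℚ) ≠ 0 := by positivity
  rw [one_div, inv_pow]
  field_simp
  rw [← pow_mul, mul_comm k 2, pow_mul]
  simp

section
variable {p : ℕ} [hp : Fact p.Prime]

lemma cong_of_pcong {m : ℕ} {x y : ℚ} (h : PCong p m x y) : Cong p m x y := by
  obtain ⟨a, b, hb, hab⟩ := h
  have hp0 : (p : ℚ) ^ m ≠ 0 := pow_ne_zero _ (by exact_mod_cast hp.out.ne_zero)
  have hb0 : (b : ℚ) ≠ 0 := by
    intro h
    apply hb
    have : b = 0 := by exact_mod_cast h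
    rw [this]; exact dvd_zero _
  have h1 : (x - y) / (p : ℚ) ^ m = (a : ℚ) / b := by
    rw [div_eq_div_iff hp0 hb0, hab]; ring
  unfold Cong
  rw [h1]
  intro hd
  apply hb
  have h2 := Rat.den_dvd a b
  rw [Rat.divInt_eq_div] at h2
  exact (Int.natCast_dvd_natCast.mpr hd).trans h2

lemma pcong_of_cong {m : ℕ} {x y : ℚ} (h : Cong p m x y) : PCong p m x y := by
  have hp0 : (p : ℚ) ^ m ≠ 0 := pow_ne_zero _ (by exact_mod_cast hp.out.ne_zero)
  refine ⟨((x - y) / (p : ℚ) ^ m).num, ((x - y) / (p : ℚ) ^ m).den, ?_, ?_⟩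
  · exact fun hd => h (Int.natCast_dvd_natCast.mp hd)
  · have h1 := Rat.mul_den_eq_num ((x - y) / (p : ℚ) ^ m)
    rw [← h1]
    push_cast
    field_simp

lemma not_dvd_small {m : ℕ} (h3 : 3 < p) (hm : m = 2 ∨ m = 3 ∨ m = 4 ∨ m = 81) : ¬ ((p : ℤ) ∣ (m : ℤ)) := by
  intro h
  have h1 : p ∣ m := Int.natCast_dvd_natCast.mp h
  rcases hm with rfl | rfl | rfl | rfl
  · exact absurd (Nat.le_of_dvd (by norm_num) h1) (by omega)
  · exact absurd (Nat.le_of_dvd (by norm_num) h1) (by omega)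
  · exact absurd (Nat.le_of_dvd (by norm_num) h1) (by
      have : p ≠ 4 := by
        intro h4; rw [h4] at hp; exact absurd hp.out (by norm_num)
      omega)
  · have h2 : p ∣ 3 ^ 4 := by simpa using h1
    have := (Nat.prime_dvd_prime_iff_eq hp.out Nat.prime_three).mp (hp.out.dvd_of_dvd_pow h2)
    omega

/-- the parameters modulo `p^2` -/
lemma exists_params (h3 : 3 < p) : ∃ q h t u : ZMod (p ^ (2:ℕ)), 4 * q = 1 ∧ 2 * h = 1 ∧ -3 * t = 1 ∧ 81 * u = 1 := by
  have key : ∀ m : ℕ, (m = 2 ∨ m = 3 ∨ m = 4 ∨ m = 81) → ∃ y : ZMod (p ^ (2:ℕ)), (m : ZMod (p ^ (2:ℕ))) * y = 1 := by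
    intro m hm
    have hu : IsUnit (m : ZMod (p ^ (2:ℕ))) := isUnit_num (fun h => not_dvd_small h3 hm (Int.natCast_dvd_natCast.mpr h))
    exact ⟨(m : ZMod (p ^ (2:ℕ)))⁻¹, ZMod.mul_inv_of_unit _ hu⟩
  obtain ⟨q, hq⟩ := key 4 (by norm_num)
  obtain ⟨h, hh⟩ := key 2 (by norm_num)
  obtain ⟨t, ht⟩ := key 3 (by norm_num)
  obtain ⟨u, hu⟩ := key 81 (by norm_num)
  push_cast at hq hh ht hu
  exact ⟨q, h, -t, u, hq, hh, by linear_combination ht, hu⟩

lemma sum_red (h3 : 3 < p) {q h t : ZMod (p ^ (2:ℕ))} (hq : 4 * q = 1) (hh : 2 * h = 1) {z : ℚ}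
    (hzt : Red p (p ^ (2:ℕ)) (1 / z) t) :
    Red p (p ^ (2:ℕ)) (∑ k ∈ range p, gbinom (-1 / 4) k * gbinom (-1 / 2) k / z ^ k) (hz p q h 1 t) := by
  unfold Cec.hz
  apply Red.sum
  intro k hk
  rw [show (-1 / 4 : ℚ) = -(1 / 4) by norm_num, show (-1 / 2 : ℚ) = -(1 / 2) by norm_num, term_eq]
  apply red_tz _ _ _ hzt (by unfold Adm; simp) (mem_range.mp hk)
  · refine ⟨1, 4, by exact_mod_cast not_dvd_small (m := 4) h3 (by norm_num), by norm_num, ?_⟩
    push_cast; linear_combination hq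
  · refine ⟨1, 2, by exact_mod_cast not_dvd_small (m := 2) h3 (by norm_num), by norm_num, ?_⟩
    push_cast; linear_combination hh
  · exact Red.one

lemma S_red (h3 : 3 < p) {q h t : ZMod (p ^ (2:ℕ))} (hq : 4 * q = 1) (hh : 2 * h = 1) (ht : -3 * t = 1) :
    Red p (p ^ (2:ℕ)) (S p) (hz p q h 1 t) := by
  apply sum_red h3 hq hh
  refine ⟨-1, 3, by exact_mod_cast not_dvd_small (m := 3) h3 (by norm_num), by norm_num, ?_⟩
  push_cast; linear_combination -ht

lemma T_red (h3 : 3 < p) {q h t : ZMod (p ^ (2:ℕ))} (hq : 4 * q = 1) (hh : 2 * h = 1) (ht : 81 * t = 1) :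
    Red p (p ^ (2:ℕ)) (T p) (hz p q h 1 t) := by
  apply sum_red h3 hq hh
  refine ⟨1, 81, by exact_mod_cast not_dvd_small (m := 81) h3 (by norm_num), by norm_num, ?_⟩
  push_cast; linear_combination ht

lemma x_not_dvd {x y : ℤ} (hxy : (p : ℤ) = x ^ 2 + y ^ 2) : ¬ (p : ℤ) ∣ x := by
  intro h
  have hpp : Prime (p : ℤ) := Nat.prime_iff_prime_int.mp hp.out
  have h1 : (p : ℤ) ∣ y := by
    apply hpp.dvd_of_dvd_pow (n := 2)
    have : y ^ 2 = p - x ^ 2 := by linear_combination -hxy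
    rw [this]
    exact dvd_sub dvd_rfl (dvd_pow h two_ne_zero)
  obtain ⟨a, ha⟩ := h
  obtain ⟨b, hb⟩ := h1
  have hp1 : (1 : ℤ) < p := by exact_mod_cast hp.out.one_lt
  have h2 : (p : ℤ) * 1 = p * (p * (a ^ 2 + b ^ 2)) := by
    rw [ha, hb] at hxy
    linear_combination hxy
  have h3 := mul_left_cancel₀ (by omega) h2
  have h4 : (p : ℤ) ∣ 1 := ⟨_, h3⟩
  have := Int.le_of_dvd one_pos h4
  omega

lemma x_red (h2 : 2 < p) {x y : ℤ} (hxy : (p : ℤ) = x ^ 2 + y ^ 2) :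
    Red p (p ^ (2:ℕ)) (2 * x - p / (2 * x))
      (2 * (x : ZMod (p ^ (2:ℕ))) - P2 p * (2 * (x : ZMod (p ^ (2:ℕ))))⁻¹) := by
  have hx := x_not_dvd hxy
  have h2x : ¬ (p : ℤ) ∣ 2 * x := by
    apply not_dvd_mul _ hx
    intro h
    have := Int.le_of_dvd (by norm_num) h
    omega
  have r1 : Red p (p ^ (2:ℕ)) (2 * x) (2 * (x : ZMod (p ^ (2:ℕ)))) := by
    have := (Red.int (p := p) (M := p ^ 2) 2).mul (Red.int (p := p) (M := p ^ 2) x)
    simpa using this
  have hu : IsUnit (2 * (x : ZMod (p ^ (2:ℕ)))) := by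
    have := isUnit_int (p := p) (M := p ^ 2) dvd_rfl h2x
    push_cast at this
    exact this
  exact r1.sub ((Red.nat p).div dvd_rfl (dvd_pow_self p two_ne_zero) r1 hu)

lemma sgn_red (n : ℕ) : Red p (p ^ (2:ℕ)) ((-1) ^ n) ((-1) ^ n) := by
  have := (Red.int (p := p) (M := p ^ 2) (-1)).pow n
  simpa using this

lemma chi3_red (h3 : 3 < p) (h4 : p % 4 = 1) : Red p (p ^ (2:ℕ)) (chi3 p) (legendreSym p 3 : ZMod (p ^ (2:ℕ))) := by
  have hleg : legendreSym p 3 = if p % 3 = 1 then 1 else -1 := by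
    have e1 := legendreSym.quadratic_reciprocity_one_mod_four (p := p) (q := 3) h4 (by norm_num)
    have e2 := legendre_three (p : ℤ)
    rw [e1] at e2
    have e3 : p % 3 ≠ 0 := by
      intro h
      have h1 : 3 ∣ p := Nat.dvd_of_mod_eq_zero h
      have := (Nat.prime_dvd_prime_iff_eq Nat.prime_three hp.out).mp h1
      omega
    have e4 : legendreSym p ((3 : ℕ) : ℤ) = legendreSym p 3 := rfl
    rw [← e4, e2]
    unfold SC24.chi3
    by_cases h1 : p % 3 = 1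
    · rw [if_pos h1, if_pos (by omega)]
    · rw [if_neg h1, if_neg (by omega), if_pos (by omega)]
  rw [hleg]
  unfold chi3
  split_ifs
  · simpa using Red.one (p := p) (M := p ^ 2)
  · have := Red.int (p := p) (M := p ^ 2) (-1)
    simpa using this

theorem law_S (h3 : 3 < p) (h4 : p % 4 = 1) {x y : ℤ} (hxy : (p : ℤ) = x ^ 2 + y ^ 2) (hx : x % 4 = 1) :
    PCong p 2 (S p) (chi3 p * (-1) ^ ((p - 1) / 4) * (2 * x - p / (2 * x))) := by
  obtain ⟨q, h, t, u, hq, hh, ht, hu⟩ := exists_params (p := p) h3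
  have hpn : p = 4 * ((p - 1) / 4) + 1 := by omega
  have r1 := S_red h3 hq hh ht
  rw [final_S h3 hpn hxy hx hq hh ht] at r1
  exact Red.pcong rfl r1 (((chi3_red h3 h4).mul (sgn_red _)).mul (x_red (by omega) hxy))

theorem law_T (h5 : 5 < p) (h4 : p % 4 = 1) {x y : ℤ} (hxy : (p : ℤ) = x ^ 2 + y ^ 2) (hx : x % 4 = 1) :
    PCong p 2 (T p) ((-1) ^ ((p - 1) / 4) * (2 * x - p / (2 * x))) := by
  obtain ⟨q, h, t, u, hq, hh, ht, hu⟩ := exists_params (p := p) (by omega)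
  have hpn : p = 4 * ((p - 1) / 4) + 1 := by omega
  have r1 := T_red (by omega) hq hh hu
  rw [final_T h5 hpn hxy hx hq hh hu] at r1
  exact Red.pcong rfl r1 ((sgn_red _).mul (x_red (by omega) hxy))

theorem law_three (h3 : 3 < p) (h4 : p % 4 = 3) : PCong p 1 (S p) 0 ∧ PCong p 1 (T p) 0 := by
  obtain ⟨q, h, t, u, hq, hh, ht, hu⟩ := exists_params (p := p) h3
  have hdvd : p ∣ p ^ 2 := dvd_pow_self p two_ne_zero
  constructor
  · have r1 := (S_red h3 hq hh ht).map hdvd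
    have e : ZMod.castHom hdvd (ZMod p) (hz p q h 1 t) = 0 := S_three h3 h4 hq hh ht
    rw [e] at r1
    exact Red.pcong (by simp) r1 Red.zero
  · have r1 := (T_red h3 hq hh hu).map hdvd
    have e : ZMod.castHom hdvd (ZMod p) (hz p q h 1 u) = 0 := final_T3 h3 h4 hq hh hu
    rw [e] at r1
    exact Red.pcong (by simp) r1 Red.zero

lemma exists_xy (h4 : p % 4 = 1) : ∃ x y : ℤ, (p : ℤ) = x ^ 2 + y ^ 2 ∧ x % 4 = 1 := by
  obtain ⟨a, b, hab⟩ := Nat.Prime.sq_add_sq (p := p) (by omega)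
  have h1 : (p : ℤ) = (a : ℤ) ^ 2 + (b : ℤ) ^ 2 := by exact_mod_cast hab.symm
  have key : ∀ x y : ℤ, (p : ℤ) = x ^ 2 + y ^ 2 → x % 2 = 1 → ∃ x y : ℤ, (p : ℤ) = x ^ 2 + y ^ 2 ∧ x % 4 = 1 := by
    intro x y hxy hx
    have : x % 4 = 1 ∨ x % 4 = 3 := by omega
    rcases this with h | h
    · exact ⟨x, y, hxy, h⟩
    · exact ⟨-x, y, by rw [hxy]; ring, by omega⟩
  have ha : (a : ℤ) % 2 = 1 ∨ (b : ℤ) % 2 = 1 := by
    by_contra hcon
    push Not at hcon
    obtain ⟨c, hc⟩ : (2 : ℤ) ∣ a := by omega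
    obtain ⟨d, hd⟩ : (2 : ℤ) ∣ b := by omega
    rw [hc, hd] at h1
    have h2 : (p : ℤ) = 2 * (2 * (c ^ 2 + d ^ 2)) := by rw [h1]; ring
    omega
  rcases ha with h | h
  · exact key _ _ h1 h
  · exact key _ _ (by rw [h1]; ring) h

lemma pcong_symm {m : ℕ} {x y : ℚ} (h : PCong p m x y) : PCong p m y x := by
  obtain ⟨a, b, hb, hab⟩ := h
  refine ⟨-a, b, hb, ?_⟩
  push_cast
  linear_combination -hab

lemma pcong_trans {m : ℕ} {x y z : ℚ} (h : PCong p m x y) (h' : PCong p m y z) : PCong p m x z := by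
  obtain ⟨a, b, hb, hab⟩ := h
  obtain ⟨c, d, hd, hcd⟩ := h'
  refine ⟨a * d + c * b, b * d, not_dvd_mul hb hd, ?_⟩
  push_cast
  linear_combination (d : ℚ) * hab + (b : ℚ) * hcd

lemma pcong_sgn {m : ℕ} {x y : ℚ} (n : ℕ) (h : PCong p m x y) : PCong p m ((-1) ^ n * x) ((-1) ^ n * y) := by
  obtain ⟨a, b, hb, hab⟩ := h
  refine ⟨(-1) ^ n * a, b, hb, ?_⟩
  push_cast
  linear_combination ((-1 : ℚ) ^ n) * hab

lemma sgn_sq (n : ℕ) (z : ℚ) : (-1 : ℚ) ^ n * ((-1) ^ n * z) = z := by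
  rw [← mul_assoc, ← mul_pow]; simp

/-- a `p`-adic unit is not congruent to its opposite -/
lemma not_neg (h2 : 2 < p) {x y : ℤ} (hxy : (p : ℤ) = x ^ 2 + y ^ 2) :
    ¬ PCong p 2 (-(2 * (x : ℚ) - p / (2 * x))) (2 * x - p / (2 * x)) := by
  rintro ⟨a, b, hb, hab⟩
  have hx := x_not_dvd hxy
  have hx0 : (x : ℚ) ≠ 0 := by
    intro h
    have : x = 0 := by exact_mod_cast h
    exact hx (by rw [this]; exact dvd_zero _)
  have hpp : Prime (p : ℤ) := Nat.prime_iff_prime_int.mp hp.out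
  have h1 : -(4 * (x : ℚ) ^ 2 * b) + p * b = p ^ 2 * a * x := by
    field_simp at hab
    linear_combination hab / 2
  have h3 : -(4 * x ^ 2 * b) + p * b = p ^ 2 * a * x := by exact_mod_cast h1
  have h4 : (p : ℤ) ∣ 4 * x ^ 2 * b := ⟨b - p * a * x, by linear_combination -h3⟩
  have h4' : ¬ (p : ℤ) ∣ 4 := by
    intro h
    have h5 : (p : ℤ) ∣ 2 ^ 2 := by norm_num; exact h
    have h6 := hpp.dvd_of_dvd_pow h5
    have := Int.le_of_dvd (by norm_num) h6
    omega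
  have h5 : ¬ (p : ℤ) ∣ x ^ 2 := fun h => hx (hpp.dvd_of_dvd_pow h)
  exact not_dvd_mul (not_dvd_mul h4' h5) hb h4

theorem assertion_of (h3 : 3 < p) (h5 : p ≠ 5) : Assertion p ↔ p % 4 = 3 ∨ p % 24 = 1 ∨ p % 24 = 5 := by
  have hodd : p % 2 = 1 := by
    rcases hp.out.eq_two_or_odd with h | h
    · omega
    · exact h
  have h30 : p % 3 ≠ 0 := by
    intro h
    have h1 : 3 ∣ p := Nat.dvd_of_mod_eq_zero h
    have := (Nat.prime_dvd_prime_iff_eq Nat.prime_three hp.out).mp h1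
    omega
  have hcase : p % 4 = 1 ∨ p % 4 = 3 := by omega
  rcases hcase with h4 | h4
  · obtain ⟨x, y, hxy, hx⟩ := exists_xy h4
    have h5' : 5 < p := by
      have : p ≠ 4 := by omega
      omega
    have hS := law_S h3 h4 hxy hx
    have hT := pcong_sgn ((p - 1) / 4) (law_T h5' h4 hxy hx)
    rw [sgn_sq] at hT
    constructor
    · intro hA
      obtain ⟨x', -, -, c1, -⟩ := hA.1 h4
      have c1' := pcong_of_cong c1
      right
      by_contra hcon
      push Not at hcon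
      have hsign : chi3 p * (-1) ^ ((p - 1) / 4) = -1 := by
        unfold chi3
        by_cases h1 : p % 3 = 1
        · have : p % 24 = 13 := by omega
          have h2 : Odd ((p - 1) / 4) := by rw [Nat.odd_iff]; omega
          rw [if_pos h1, h2.neg_one_pow]; norm_num
        · have : p % 24 = 17 := by omega
          have h2 : Even ((p - 1) / 4) := by rw [Nat.even_iff]; omega
          rw [if_neg h1, h2.neg_one_pow]; norm_num
      rw [hsign] at hS
      have e : (-1 : ℚ) * (2 * x - p / (2 * x)) = -(2 * (x : ℚ) - p / (2 * x)) := by ring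
      rw [e] at hS
      exact not_neg (by omega) hxy (pcong_trans (pcong_symm hS) (pcong_trans c1' hT))
    · intro h
      refine ⟨fun _ => ⟨x, ?_, ⟨y, hxy⟩, ?_, ?_⟩, fun h' => by omega⟩
      · rw [Int.odd_iff]; omega
      · have hsign : chi3 p * (-1) ^ ((p - 1) / 4) = 1 := by
          unfold chi3
          rcases h with h | h | h
          · omega
          · have h2 : Even ((p - 1) / 4) := by rw [Nat.even_iff]; omega
            rw [if_pos (by omega), h2.neg_one_pow]; norm_num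
          · have h2 : Odd ((p - 1) / 4) := by rw [Nat.odd_iff]; omega
            rw [if_neg (by omega), h2.neg_one_pow]; norm_num
        rw [hsign, one_mul] at hS
        exact cong_of_pcong (pcong_trans hS (pcong_symm hT))
      · exact cong_of_pcong hT
  · constructor
    · intro _; exact Or.inl h4
    · intro _
      obtain ⟨c1, c2⟩ := law_three h3 h4
      exact ⟨fun h' => by omega, fun _ => ⟨cong_of_pcong (pcong_trans c1 (pcong_symm c2)), cong_of_pcong c2⟩⟩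

end

theorem T_five : T 5 = 3767318483299 / 3761479876608 := by
  simp only [T, gbinom, sum_range_succ, prod_range_succ, sum_range_zero, prod_range_zero,
    Nat.factorial]
  norm_num

theorem not_assertion_five : ¬ Assertion 5 := by
  rintro ⟨h, -⟩
  obtain ⟨x, hx, ⟨y, hy⟩, -, h2⟩ := h rfl
  have h1 : x = 1 ∨ x = -1 := by
    have hy' : (5 : ℤ) = x ^ 2 + y ^ 2 := by exact_mod_cast hy
    have h1 : x ^ 2 ≤ 5 := by nlinarith
    have h2 : x ≤ 2 := by nlinarith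
    have h3 : -2 ≤ x := by nlinarith
    obtain ⟨m, hm⟩ := hx
    interval_cases x <;> omega
  apply h2
  rw [T_five]
  rcases h1 with rfl | rfl <;> norm_num

/-- The sums `S_p` and `T_p` modulo `p^2` (for `p ≡ 1 mod 4`, with the sign) and modulo `p` (for
`p ≡ 3 mod 4`), and the exact set of primes for which the posed assertion holds. -/
theorem result :
    (∀ p : ℕ, p.Prime → 3 < p → p % 4 = 1 → ∀ x y : ℤ, (p : ℤ) = x ^ 2 + y ^ 2 → x % 4 = 1 →
      Cong p 2 (S p) (chi3 p * (-1) ^ ((p - 1) / 4) * (2 * x - p / (2 * x))) ∧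
      (p ≠ 5 → Cong p 2 (T p) ((-1) ^ ((p - 1) / 4) * (2 * x - p / (2 * x))))) ∧
    (∀ p : ℕ, p.Prime → 3 < p → p % 4 = 3 → Cong p 1 (S p) 0 ∧ Cong p 1 (T p) 0) ∧
    (∀ p : ℕ, p.Prime → 3 < p →
      (Assertion p ↔ p % 4 = 3 ∨ (p ≠ 5 ∧ (p % 24 = 1 ∨ p % 24 = 5)))) := by
  refine ⟨?_, ?_, ?_⟩
  · intro p hp h3 h4 x y hxy hx
    have : Fact p.Prime := ⟨hp⟩
    refine ⟨cong_of_pcong (law_S h3 h4 hxy hx), fun h5 => ?_⟩
    exact cong_of_pcong (law_T (by
      have : p ≠ 4 := by omega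
      omega) h4 hxy hx)
  · intro p hp h3 h4
    have : Fact p.Prime := ⟨hp⟩
    obtain ⟨c1, c2⟩ := law_three h3 h4
    exact ⟨cong_of_pcong c1, cong_of_pcong c2⟩
  · intro p hp h3
    have : Fact p.Prime := ⟨hp⟩
    by_cases h5 : p = 5
    · subst h5
      constructor
      · intro h; exact absurd h not_assertion_five
      · intro h
        rcases h with h | h
        · omega
        · exact absurd rfl h.1
    · rw [assertion_of h3 h5]
      tauto

end Pool.Agent.Results.MP_cec948_nt.CorrectedLaw
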